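import Pool.Agent.H92G.Gd

/-!
# The Euler factors of the twists over an abelian extension
-/

set_option autoImplicit false
set_option linter.unusedSectionVars false

namespace Pool.Agent.H92G

open Finset NumberField IsDedekindDomain Filter Topology
open Pool.Agent.K4H55.BI Pool.Agent.K4H55.CX
open Pool.Agent.H92 Pool.Agent.H92P
open scoped ComplexConjugate

variable {K : Type} [Field K] [NumberField K] [hP : IsPrincipalIdealRing (𝓞 K)] {σ : K →+* ℂ}
  {δ : K} {n : 𝓞 K} {c : Ideal (𝓞 K) → ℂ} {𝒢 : Type} [CommGroup 𝒢] [Finite 𝒢]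
  {T : 𝒢 → Finset (HeightOneSpectrum (𝓞 K))} {χ : 𝒢 → 𝓞 K → ℂ}

open Classical in
/-- the Euler factor of the twist above `v`; `z` is the value of the character at `v` -/
noncomputable def facT (n : 𝓞 K) (c : Ideal (𝓞 K) → ℂ) (v : HeightOneSpectrum (𝓞 K)) (z : ℂ)
    (Q : ℕ) (s : ℂ) : ℂ :=
  if n ∈ v.asIdeal then (1 - (c v.asIdeal * z) ^ (Nat.log (Ideal.absNorm v.asIdeal) Q) *
    (Q : ℂ) ^ (-s))⁻¹
  else (1 - luc (c v.asIdeal) (Ideal.absNorm v.asIdeal) (Nat.log (Ideal.absNorm v.asIdeal) Q) *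
    z ^ (Nat.log (Ideal.absNorm v.asIdeal) Q) * (Q : ℂ) ^ (-s) +
      z ^ (2 * Nat.log (Ideal.absNorm v.asIdeal) Q) * (Q : ℂ) ^ (1 - 2 * s))⁻¹

/-- the product of the Euler factors -/
theorem localT (h : CFp T χ) (v : HeightOneSpectrum (𝓞 K)) [Fintype 𝒢] (n : 𝓞 K)
    (c : Ideal (𝓞 K) → ℂ) (ξ : 𝓞 K → ℂ) (s : ℂ) {m : ℕ}
    (hm : m * ord χ (gen v) = Nat.card {g // χ g (gen v) ≠ 0}) :
    ∏ g, efx n c (fun x => ξ x * χ g x) s v =
      facT n c v (ξ (gen v)) (Ideal.absNorm v.asIdeal ^ ord χ (gen v)) s ^ m := by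
  classical
  obtain ⟨r, h1, h2, h3⟩ := h.prod (gen v)
  have hrm : r = m := Nat.eq_of_mul_eq_mul_right h2 (h1.trans hm.symm)
  subst hrm
  set f := ord χ (gen v) with hf
  set q := Ideal.absNorm v.asIdeal with hq
  set z := ξ (gen v) with hz
  have hq1 : 1 < q := by
    have h5 : q ≠ 0 := by
      rw [hq, Ne, Ideal.absNorm_eq_zero_iff]
      exact v.ne_bot
    have h6 : q ≠ 1 := by
      rw [hq, Ne, Ideal.absNorm_eq_one_iff]
      exact v.isPrime.ne_top
    omega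
  have hqf : q ^ f ≠ 0 := pow_ne_zero f (by omega)
  have hlog : Nat.log q (q ^ f) = f := Nat.log_pow hq1 f
  unfold facT
  rw [← hq, hlog]
  by_cases hn : n ∈ v.asIdeal
  · rw [if_pos hn, cpow_f, ← mul_pow]
    have h4 := h3 1 (fun _ => c v.asIdeal * z * (q : ℂ) ^ (-s))
      (fun t => (1 - c v.asIdeal * z * (q : ℂ) ^ (-s) * t)⁻¹) (by simp) (fun z => by simp)
    simp only [Finset.univ_unique, Finset.prod_const, Finset.card_singleton, pow_one] at h4
    rw [← h4]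
    refine Finset.prod_congr rfl fun g _ => ?_
    unfold efx
    rw [if_pos hn, ← hq, add_zero]
    beta_reduce
    rw [← hz]
    congr 2
    ring
  · rw [if_neg hn, cpow_two _ hqf, cpow_f]
    obtain ⟨α, β, hα, hβ⟩ := exists_ab (c v.asIdeal) q
    have e1 : luc (c v.asIdeal) (q : ℂ) f = α ^ f + β ^ f := by
      rw [← hα, ← hβ, luc_eq]
    have h4 := h3 2 ![α * z * (q : ℂ) ^ (-s), β * z * (q : ℂ) ^ (-s)]
      (fun t => ((1 - α * z * (q : ℂ) ^ (-s) * t) * (1 - β * z * (q : ℂ) ^ (-s) * t))⁻¹) (by simp)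
      (fun z => by simp)
    rw [Fin.prod_univ_two] at h4
    simp only [Matrix.cons_val_zero, Matrix.cons_val_one, Matrix.cons_val_fin_one] at h4
    rw [e1]
    have e2 : 1 - (α ^ f + β ^ f) * z ^ f * ((q : ℂ) ^ (-s)) ^ f +
        z ^ (2 * f) * (((q ^ f : ℕ) : ℂ) * (((q : ℂ) ^ (-s)) ^ f) ^ 2) =
        (1 - (α * z * (q : ℂ) ^ (-s)) ^ f) * (1 - (β * z * (q : ℂ) ^ (-s)) ^ f) := by
      rw [mul_pow, mul_pow, mul_pow, mul_pow]
      push_cast
      rw [← hβ, mul_pow, mul_comm 2 f, pow_mul]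
      ring
    rw [e2, ← h4]
    refine Finset.prod_congr rfl fun g _ => ?_
    unfold efx
    rw [if_neg hn, ← hq, cpow_two _ (by omega), ← hα]
    beta_reduce
    rw [← hz]
    congr 1
    rw [← hβ]
    ring

/-- the product of the factors above `v` -/
lemma above_prodT {F : Type} [Field F] [NumberField F] [Algebra K F] (hcf : CFp T χ)
    (hl : Law F χ) [Fintype 𝒢] (ξ : 𝓞 K → ℂ) (v : HeightOneSpectrum (𝓞 K)) (s : ℂ) :
    ∏ᶠ u : {u : HeightOneSpectrum (𝓞 F) //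
      u.asIdeal.comap (algebraMap (𝓞 K) (𝓞 F)) = v.asIdeal},
        facT n c v (ξ (gen v)) (Ideal.absNorm u.1.asIdeal) s =
          ∏ g, efx n c (fun x => ξ x * χ g x) s v := by
  classical
  have h1 := hl.card v
  rw [localT hcf v n c ξ s h1]
  set m := Nat.card {u : HeightOneSpectrum (𝓞 F) //
      u.asIdeal.comap (algebraMap (𝓞 K) (𝓞 F)) = v.asIdeal} with hm
  have hpos : 0 < Nat.card {g // χ g (gen v) ≠ 0} := by
    have : Nonempty {g // χ g (gen v) ≠ 0} := ⟨⟨1, by rw [hcf.triv]; exact one_ne_zero⟩⟩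
    exact Nat.card_pos
  have hm0 : m ≠ 0 := by
    intro h0
    rw [h0, zero_mul] at h1
    omega
  have hfin : Finite {u : HeightOneSpectrum (𝓞 F) //
      u.asIdeal.comap (algebraMap (𝓞 K) (𝓞 F)) = v.asIdeal} := Nat.finite_of_card_ne_zero hm0
  have : Fintype {u : HeightOneSpectrum (𝓞 F) //
      u.asIdeal.comap (algebraMap (𝓞 K) (𝓞 F)) = v.asIdeal} := Fintype.ofFinite _
  rw [finprod_eq_prod_of_fintype, Finset.prod_congr rfl fun u _ => by rw [hl.norm v u.1 u.2],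
    Finset.prod_const, Finset.card_univ, ← Nat.card_eq_fintype_card]

end Pool.Agent.H92G
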