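import Pool.Agent.H92P.MultiP

/-!
# Characters of conductors prime to each other, and the twisted sums of a Bianchi form
-/

set_option autoImplicit false
set_option linter.unusedSectionVars false

namespace Pool.Agent.H92G

open Finset NumberField IsDedekindDomain Filter Topology
open Pool.Agent.K4H55.BI Pool.Agent.K4H55.CX
open Pool.Agent.Y683.CG
open Pool.Agent.H92 Pool.Agent.H92P
open scoped ComplexConjugate

section mul

variable {K : Type} [Field K] [NumberField K] [hP : IsPrincipalIdealRing (𝓞 K)]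

open Classical in
/-- the product of two characters of conductors prime to each other -/
lemma cp_mul {T T0 : Finset (HeightOneSpectrum (𝓞 K))} {χ ψ : 𝓞 K → ℂ} (hχ : CP T χ)
    (hψ : CP T0 ψ) (hd : Disjoint T T0) : CP (T ∪ T0) fun x => χ x * ψ x := by
  refine ⟨by rw [hχ.one, hψ.one, mul_one], fun x y => by rw [hχ.mul, hψ.mul]; ring, fun x => ?_,
    fun x y hxy => ?_, fun u hu => by rw [hχ.unit u hu, hψ.unit u hu, mul_one], fun v hv => ?_, ?_⟩
  · rw [mul_eq_zero, hχ.zero, hψ.zero]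
    constructor
    · rintro (⟨v, hv, hx⟩ | ⟨v, hv, hx⟩)
      · exact ⟨v, mem_union_left _ hv, hx⟩
      · exact ⟨v, mem_union_right _ hv, hx⟩
    · rintro ⟨v, hv, hx⟩
      rcases mem_union.1 hv with h | h
      · exact Or.inl ⟨v, h, hx⟩
      · exact Or.inr ⟨v, h, hx⟩
  · rw [hχ.prd x y fun v hv => hxy v (mem_union_left _ hv),
      hψ.prd x y fun v hv => hxy v (mem_union_right _ hv)]
  · rcases mem_union.1 hv with h | h
    · obtain ⟨x, h1, h2, h3⟩ := hχ.prim v h
      obtain ⟨y, hy1, hy2⟩ := H92.exists_crt ((T ∪ T0).erase v) (notMem_erase v _) x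
      have e1 : χ y = χ x := by
        refine hχ.prd y x fun v' hv' => ?_
        by_cases hvv : v' = v
        · rw [hvv]; exact hy1
        · have h4 := hy2 v' (mem_erase.2 ⟨hvv, mem_union_left _ hv'⟩)
          have h5 := h1 v' hv' hvv
          have h6 : y - x = (y - 1) - (x - 1) := by ring
          rw [h6]
          exact v'.asIdeal.sub_mem h4 h5
      have e2 : ψ y = 1 := by
        rw [← hψ.one]
        refine hψ.prd y 1 fun v' hv' => hy2 v' (mem_erase.2 ⟨?_, mem_union_right _ hv'⟩)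
        rintro rfl
        exact Finset.disjoint_left.1 hd h hv'
      refine ⟨y, fun v' hv' hvv => hy2 v' (mem_erase.2 ⟨hvv, hv'⟩), ?_, ?_⟩
      · rw [e1, e2, mul_one]; exact h2
      · rw [e1, e2, mul_one]; exact h3
    · obtain ⟨x, h1, h2, h3⟩ := hψ.prim v h
      obtain ⟨y, hy1, hy2⟩ := H92.exists_crt ((T ∪ T0).erase v) (notMem_erase v _) x
      have e1 : ψ y = ψ x := by
        refine hψ.prd y x fun v' hv' => ?_
        by_cases hvv : v' = v
        · rw [hvv]; exact hy1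
        · have h4 := hy2 v' (mem_erase.2 ⟨hvv, mem_union_right _ hv'⟩)
          have h5 := h1 v' hv' hvv
          have h6 : y - x = (y - 1) - (x - 1) := by ring
          rw [h6]
          exact v'.asIdeal.sub_mem h4 h5
      have e2 : χ y = 1 := by
        rw [← hχ.one]
        refine hχ.prd y 1 fun v' hv' => hy2 v' (mem_erase.2 ⟨?_, mem_union_left _ hv'⟩)
        rintro rfl
        exact Finset.disjoint_left.1 hd hv' h
      refine ⟨y, fun v' hv' hvv => hy2 v' (mem_erase.2 ⟨hvv, hv'⟩), ?_, ?_⟩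
      · rw [e1, e2, one_mul]; exact h2
      · rw [e1, e2, one_mul]; exact h3
  · obtain ⟨m, hm, h1⟩ := hχ.pow
    obtain ⟨m', hm', h2⟩ := hψ.pow
    refine ⟨m * m', Nat.mul_pos hm hm', fun x hx => ?_⟩
    have hx1 : χ x ≠ 0 := left_ne_zero_of_mul hx
    have hx2 : ψ x ≠ 0 := right_ne_zero_of_mul hx
    rw [mul_pow, pow_mul, h1 x hx1, one_pow, mul_comm m m', pow_mul, h2 x hx2, one_pow, one_mul]

end mul

section places

variable {K : Type} [Field K] [NumberField K] [hP : IsPrincipalIdealRing (𝓞 K)] {σ : K →+* ℂ}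
  {δ : K} {n : 𝓞 K} {c : Ideal (𝓞 K) → ℂ}

/-- the places prime to `2` and to the level -/
def Gd (n : 𝓞 K) (v : HeightOneSpectrum (𝓞 K)) : Prop := (2 : 𝓞 K) ∉ v.asIdeal ∧ n ∉ v.asIdeal

lemma fam_gd [DecidableEq (𝓞 K)] {T : Finset (HeightOneSpectrum (𝓞 K))} (hT : ∀ v ∈ T, Gd n v) :
    Fam (T.image gen) :=
  fam_of (A := {v | (2 : 𝓞 K) ∉ v.asIdeal}) (fun _ hv => hv) (fun v hv => (hT v hv).1)

lemma nn_gd [DecidableEq (𝓞 K)] {T : Finset (HeightOneSpectrum (𝓞 K))} (hT : ∀ v ∈ T, Gd n v) :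
    ∀ p ∈ T.image gen, ¬ p ∣ n := by
  intro p hp hd
  obtain ⟨v, hv, rfl⟩ := mem_image.1 hp
  exact (hT v hv).2 (gen_dvd.1 hd)

lemma levg (h : IQ K σ δ) {C : ℝ} {w : ℂ} {M : Submodule ℤ ℂ}
    (hMG : MG (ordK h) n (fun x => c (Ideal.span {x})) C w M)
    [DecidableEq (HeightOneSpectrum (𝓞 K))] {T : Finset (HeightOneSpectrum (𝓞 K))} {Y : 𝓞 K → ℂ}
    (hYp : ∀ x y, (∀ v ∈ T, x - y ∈ v.asIdeal) → Y x = Y y)
    (hYm : ∀ x y, Y (x * y) = Y x * Y y) (R : Finset (HeightOneSpectrum (𝓞 K))) :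
    Disjoint R T → (∀ v ∈ R ∪ T, Gd n v) → (∀ v ∈ R, Y (gen v) * conj (Y (gen v)) = 1) →
    H92.val h c (R ∪ T) Y = (∏ v ∈ R, (c v.asIdeal - Y (gen v) - conj (Y (gen v)))) * H92.val h c T Y := by
  classical
  induction R using Finset.induction_on with
  | empty =>
    intro _ _ _
    rw [Finset.empty_union, Finset.prod_empty, one_mul]
  | insert q R hq ih =>
    intro hd hA hY
    have hqT : q ∉ T := fun h => Finset.disjoint_left.1 hd (Finset.mem_insert_self q R) h
    have hqRT : q ∉ R ∪ T := by simp [hq, hqT]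
    have h1 := ih (hd.mono_left (Finset.subset_insert q R))
      (fun v hv => hA v (by
        rw [Finset.insert_union]
        exact Finset.mem_insert_of_mem hv))
      (fun v hv => hY v (Finset.mem_insert_of_mem hv))
    rw [Finset.insert_union] at hA ⊢
    have h2 : gen q ∉ (R ∪ T).image gen := by
      intro hmem
      obtain ⟨v, hv, he⟩ := mem_image.1 hmem
      exact hqRT (gen_inj he ▸ hv)
    have h3 := stX_step hMG (S := (R ∪ T).image gen) (q := gen q) h2
      (by rw [← image_insert]; exact fam_gd hA) (by rw [← image_insert]; exact nn_gd hA)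
      (X := Y) (fun x y hxy => hYp x y fun v hv => gen_dvd.1 ((dvd_md (mem_image_of_mem _
        (mem_union_right _ hv))).trans hxy)) hYm (hY q (mem_insert_self q R))
    have h4 : H92.val h c (insert q (R ∪ T)) Y = (c q.asIdeal - Y (gen q) - conj (Y (gen q))) *
        H92.val h c (R ∪ T) Y := by
      unfold H92.val
      rw [image_insert, h3]
      simp only [gen_span]
    rw [h4, h1, Finset.prod_insert hq, mul_assoc]

/-- the `L`-function of the twist by a character, and its central value -/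
lemma val_g (h : IQ K σ δ) (hf : BF σ δ n c) {T : Finset (HeightOneSpectrum (𝓞 K))}
    {χ : 𝓞 K → ℂ} (hχ : CP T χ) (hT : ∀ v ∈ T, Gd n v) :
    ∃ (G : ℂ → ℂ) (C : ℂ), Differentiable ℂ G ∧ (∀ s : ℂ, 2 < s.re → HasProd (efx n c χ s) (G s)) ∧
      C ≠ 0 ∧ G 1 = C * H92.val h c T (br χ) := by
  classical
  have hfam : Fam (T.image gen) := fam_gd hT
  obtain ⟨G, h1, h2, h3⟩ := value_x h hf hfam hχ.hc hχ.unit fun v hv => (hT v hv).2
  have e : ∑ x ∈ rs (ordK h) (md (T.image gen)), conj (χ x) *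
      fv (ordK h) (fun x => c (Ideal.span {x})) ((ordK h).ι x /
        (ordK h).ι (md (T.image gen))) = H92.val h c T (br χ) := by
    unfold H92.val stX
    refine Finset.sum_congr rfl fun x _ => ?_
    by_cases hx : ∀ p ∈ T.image gen, ¬ p ∣ x
    · rw [cop_one_of hx, one_mul]
      rfl
    · push Not at hx
      obtain ⟨p, hp, hd⟩ := hx
      have h0 : br χ x = 0 := hχ.hc.br.zero x p hp hd
      have h0' : conj (χ x) = 0 := h0
      rw [h0, h0']
      ring
  have hk0 : (kap (ordK h) : ℂ) ≠ 0 := by exact_mod_cast (kap_pos (ordK h)).ne'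
  refine ⟨G, kap (ordK h) / gx (ordK h) (T.image gen) (br χ) 1 / nu (𝓞 K), h1, h2,
    div_ne_zero (div_ne_zero hk0 (gx_ne (ordK h) hfam hχ.hc.br)) (nu_ne (ordK h)), ?_⟩
  rw [h3, e]
  ring

lemma chr_neg (h : IQ K σ δ) (hf : BF σ δ n c) {T : Finset (HeightOneSpectrum (𝓞 K))}
    {χ : 𝓞 K → ℂ} (hχ : CP T χ) (hT : ∀ v ∈ T, Gd n v) (hne : H92.val h c T (br χ) ≠ 0) :
    ∃ G : ℂ → ℂ, Differentiable ℂ G ∧ (∀ s : ℂ, 2 < s.re → HasProd (efx n c χ s) (G s)) ∧
      G 1 ≠ 0 := by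
  obtain ⟨G, C, h1, h2, h3, h4⟩ := val_g h hf hχ hT
  exact ⟨G, h1, h2, by rw [h4]; exact mul_ne_zero h3 hne⟩

lemma val_neg (h : IQ K σ δ) (hf : BF σ δ n c) {T : Finset (HeightOneSpectrum (𝓞 K))}
    {χ : 𝓞 K → ℂ} (hχ : CP T χ) (hT : ∀ v ∈ T, Gd n v) {G : ℂ → ℂ} (hG : Differentiable ℂ G)
    (hp : ∀ s : ℂ, 2 < s.re → HasProd (efx n c χ s) (G s)) (h1 : G 1 ≠ 0) :
    H92.val h c T (br χ) ≠ 0 := by
  obtain ⟨G', C, g1, g2, g3, g4⟩ := val_g h hf hχ hT
  rw [H92.eq_of_prod hG g1 hp g2, g4] at h1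
  exact right_ne_zero_of_mul h1

end places

end Pool.Agent.H92G
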