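import Pool.Agent.H92G.Tow

/-!
# Trivial local components at finitely many places, and the counting of characters by conductor
-/

set_option autoImplicit false
set_option linter.unusedSectionVars false

namespace Pool.Agent.H92G

open Finset NumberField IsDedekindDomain Filter Topology
open Pool.Agent.K4H55.BI Pool.Agent.K4H55.CX
open Pool.Agent.Y683.CG
open Pool.Agent.H92 Pool.Agent.H92P

variable {K : Type} [Field K] [NumberField K] [hP : IsPrincipalIdealRing (𝓞 K)]

/-- blocks of characters with trivial local components at the places in `S` -/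
theorem ram_S {l : ℕ} (hl : l.Prime) (S : Finset (HeightOneSpectrum (𝓞 K))) (b d : ℕ) :
    RamPp l b d (fun v => v ∉ S) (fun _ χ => ∀ v ∈ S, χ (gen v) = 1) := by
  classical
  set e : ℕ := l ^ b with he
  have he0 : 0 < e := pow_pos hl.pos b
  set R : Finset ℂ := Polynomial.nthRootsFinset e (1 : ℂ) with hR
  set M : ℕ := (Fintype.piFinset fun _ : Fin d × S => R).card with hM
  refine ⟨fun k => k * M, fun X _ T χ hχ hXe hA τ g => ?_⟩
  have hne : ∀ (y : X), ∀ v ∈ S, χ y (gen v) ≠ 0 := by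
    intro y v hv
    rw [(hχ.ch y).ne_iff]
    intro v' hv' hmem
    have h7 : v' = v := gen_na (gen_dvd.2 hmem)
    exact hA y v' hv' (h7 ▸ hv)
  have hmul : ∀ (y y' : X), ∀ v ∈ S, χ (y * y') (gen v) = χ y (gen v) * χ y' (gen v) :=
    fun y y' v hv => hχ.mul y y' _ (hne y v hv) (hne y' v hv)
  set F : ℕ → ℕ → (Fin d × S → ℂ) := fun k j iv =>
    χ (τ iv.1 (∏ i ∈ range j, g (k * M + i))) (gen iv.2.1) with hF
  have hFm : ∀ k j, F k j ∈ Fintype.piFinset fun _ : Fin d × S => R := by
    intro k j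
    rw [Fintype.mem_piFinset]
    intro iv
    rw [hR, Polynomial.mem_nthRootsFinset he0]
    exact hχ.root _ (hXe _) (hne _ _ iv.2.2)
  have hex : ∀ k, ∃ i j, i < j ∧ j ≤ M ∧ F k i = F k j := by
    intro k
    obtain ⟨i, hi, j, hj, hij, h1⟩ := Finset.exists_ne_map_eq_of_card_lt_of_maps_to
      (s := range (M + 1)) (t := Fintype.piFinset fun _ : Fin d × S => R) (f := F k)
      (by rw [card_range, ← hM]; exact Nat.lt_succ_self M) (fun j _ => hFm k j)
    have hi' := mem_range.1 hi
    have hj' := mem_range.1 hj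
    rcases lt_or_gt_of_ne hij with h2 | h2
    · exact ⟨i, j, h2, by omega, h1⟩
    · exact ⟨j, i, h2, by omega, h1.symm⟩
  choose i j hij hj hFe using hex
  refine ⟨fun k => Ico (k * M + i k) (k * M + j k), fun k => ⟨?_, ?_⟩, fun x hx => ?_⟩
  · rw [nonempty_Ico]
    have := hij k
    omega
  · have h1 := hj k
    refine Ico_subset_Ico (Nat.le_add_right _ _) ?_
    beta_reduce
    rw [Nat.succ_mul]
    omega
  · unfold clo at hx
    refine Subgroup.closure_induction (p := fun x _ => ∀ v ∈ S, χ x (gen v) = 1) ?_ ?_ ?_ ?_ hx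
    · rintro _ ⟨a, k, rfl⟩ v hv
      have h1 := congrFun (hFe k) (a, ⟨v, hv⟩)
      simp only [hF] at h1
      have h2 : ∏ t ∈ range (j k), g (k * M + t) = (∏ t ∈ range (i k), g (k * M + t)) *
          ∏ t ∈ Ico (k * M + i k) (k * M + j k), g t := by
        have h3 : ∏ t ∈ Ico (k * M + i k) (k * M + j k), g t =
            ∏ t ∈ Ico (i k) (j k), g (k * M + t) := by
          rw [add_comm (k * M) (i k), add_comm (k * M) (j k), ← prod_Ico_add]
        rw [h3, prod_range_mul_prod_Ico _ (hij k).le]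
      rw [h2, map_mul, hmul _ _ v hv] at h1
      exact (mul_left_cancel₀ (hne _ v hv) (by rw [mul_one]; exact h1)).symm
    · intro v hv
      exact hχ.triv _
    · intro x y _ _ hx hy v hv
      rw [hmul x y v hv, hx v hv, hy v hv, one_mul]
    · intro x _ hx v hv
      have h1 := hmul x⁻¹ x v hv
      rw [inv_mul_cancel, hχ.triv, hx v hv, mul_one] at h1
      exact h1.symm

/-- finitely many properties at once -/
theorem ramPp_fin {p b d : ℕ} {ι : Type} [Finite ι] (A : ι → HeightOneSpectrum (𝓞 K) → Prop)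
    (N : ι → Finset (HeightOneSpectrum (𝓞 K)) → (𝓞 K → ℂ) → Prop)
    (h : ∀ i, RamPp p b d (A i) (N i)) :
    RamPp p b d (fun v => ∀ i, A i v) (fun T χ => ∀ i, N i T χ) := by
  obtain ⟨k, ⟨e⟩⟩ := Finite.exists_equiv_fin ι
  refine ramPp_mono (ramPp_all (fun i => A (e.symm i)) (fun i => N (e.symm i))
    fun i => h (e.symm i)) (fun v hv i => hv _) fun T χ hT i => ?_
  have := hT (e i)
  rwa [e.symm_apply_apply] at this

/-- the norm of the conductor -/
noncomputable def cn (T : Finset (HeightOneSpectrum (𝓞 K))) : ℕ := ∏ v ∈ T, Ideal.absNorm v.asIdeal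

lemma norm_pos (v : HeightOneSpectrum (𝓞 K)) : 1 ≤ Ideal.absNorm v.asIdeal := by
  rw [Nat.one_le_iff_ne_zero, Ne, Ideal.absNorm_eq_zero_iff]
  exact v.ne_bot

lemma norm_le_cn {T : Finset (HeightOneSpectrum (𝓞 K))} {v : HeightOneSpectrum (𝓞 K)}
    (hv : v ∈ T) : Ideal.absNorm v.asIdeal ≤ cn T :=
  Finset.single_le_prod' (f := fun v : HeightOneSpectrum (𝓞 K) => Ideal.absNorm v.asIdeal)
    (fun v _ => norm_pos v) hv

lemma cn_pos (T : Finset (HeightOneSpectrum (𝓞 K))) : 1 ≤ cn T :=
  Finset.one_le_prod' fun v _ => norm_pos v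

open Classical in
lemma cn_union (T T' R : Finset (HeightOneSpectrum (𝓞 K))) (hR : R ⊆ T ∪ T') :
    cn R ≤ cn T * cn T' := by
  unfold cn
  calc ∏ v ∈ R, Ideal.absNorm v.asIdeal
      ≤ ∏ v ∈ T ∪ T', Ideal.absNorm v.asIdeal :=
        Finset.prod_le_prod_of_subset_of_one_le' hR fun v _ _ => norm_pos v
    _ ≤ (∏ v ∈ T, Ideal.absNorm v.asIdeal) * ∏ v ∈ T', Ideal.absNorm v.asIdeal := by
        rw [← Finset.prod_union_inter]
        exact Nat.le_mul_of_pos_right _ (Finset.prod_pos fun v _ => norm_pos v)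

/-- there are finitely many characters of bounded exponent and conductor -/
lemma fin_cond {X : Type} [CommGroup X] {T : X → Finset (HeightOneSpectrum (𝓞 K))}
    {χ : X → 𝓞 K → ℂ} (hχ : CGp T χ) (hinj : Function.Injective χ) {e : ℕ} (he : 0 < e)
    (hX : ∀ g : X, g ^ e = 1) (N : ℕ) : {g : X | cn (T g) ≤ N}.Finite := by
  classical
  -- the places of norm at most `N`
  have hfin : {v : HeightOneSpectrum (𝓞 K) | Ideal.absNorm v.asIdeal ≤ N}.Finite := by
    have h1 := Ideal.finite_setOf_absNorm_le (S := 𝓞 K) N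
    refine Set.Finite.of_finite_image (f := fun v => v.asIdeal) (h1.subset ?_) ?_
    · rintro _ ⟨v, hv, rfl⟩
      exact hv
    · intro v _ v' _ h
      exact HeightOneSpectrum.ext h
  set P := hfin.toFinset with hP'
  have hTP : ∀ g, cn (T g) ≤ N → ∀ v ∈ T g, v ∈ P := by
    intro g hg v hv
    rw [hP', Set.Finite.mem_toFinset]
    exact (norm_le_cn hv).trans hg
  -- the residues
  set I : Ideal (𝓞 K) := ∏ v ∈ P, v.asIdeal with hI
  have hI0 : I ≠ ⊥ := by
    rw [hI, Ne, ← Ideal.zero_eq_bot, Finset.prod_eq_zero_iff]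
    rintro ⟨v, -, hv⟩
    exact v.ne_bot hv
  have hquot : Finite (𝓞 K ⧸ I) := Ideal.finiteQuotientOfFreeOfNeBot I hI0
  set rep : 𝓞 K ⧸ I → 𝓞 K := fun q => Quotient.out q with hrep
  have hval : ∀ g, cn (T g) ≤ N → ∀ x, χ g x = χ g (rep (Ideal.Quotient.mk I x)) := by
    intro g hg x
    refine (hχ.ch g).prd _ _ fun v hv => ?_
    have h1 : x - rep (Ideal.Quotient.mk I x) ∈ I := by
      rw [← Ideal.Quotient.eq]
      exact (Quotient.out_eq' _).symm
    have h2 : I ≤ v.asIdeal := by
      rw [hI]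
      exact Ideal.prod_le_inf.trans (Finset.inf_le (hTP g hg v hv))
    exact h2 h1
  set V : Set ℂ := insert 0 (Polynomial.nthRootsFinset e (1 : ℂ) : Set ℂ) with hV
  have hVf : V.Finite := (Finset.finite_toSet _).insert 0
  have : Finite V := hVf
  have hmem : ∀ g x, χ g x ∈ V := by
    intro g x
    by_cases h0 : χ g x = 0
    · rw [h0]
      exact Set.mem_insert _ _
    · refine Set.mem_insert_of_mem _ ?_
      rw [Finset.mem_coe, Polynomial.mem_nthRootsFinset he]
      exact hχ.root g (hX g) h0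
  refine Set.Finite.of_injOn (f := fun g => fun q : 𝓞 K ⧸ I => (⟨χ g (rep q), hmem g _⟩ : V))
    (t := Set.univ) (Set.mapsTo_univ _ _) ?_ Set.finite_univ
  intro g hg g' hg' h
  apply hinj
  funext x
  have h1 := congrArg Subtype.val (congrFun h (Ideal.Quotient.mk I x))
  rw [hval g hg, hval g' hg']
  exact h1

/-- the counting from the covering by translates -/
lemma count_of_cover {X : Type} [CommGroup X] {T : X → Finset (HeightOneSpectrum (𝓞 K))}
    {χ : X → 𝓞 K → ℂ} (hχ : CGp T χ) (hinj : Function.Injective χ) {e : ℕ} (he : 0 < e)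
    (hX : ∀ g : X, g ^ e = 1) (P : X → Prop) (𝒦 : Finset X)
    (h𝒦 : ∀ g : X, ∃ k ∈ 𝒦, P (g * k)) :
    ∃ C : ℕ, ∀ N : ℕ, {g : X | cn (T g) ≤ N}.ncard ≤
      C * {g : X | cn (T g) ≤ C * N ∧ P g}.ncard := by
  classical
  choose k hk hPk using h𝒦
  set C₁ := 𝒦.sup fun k => cn (T k) with hC₁
  set C := max C₁ 𝒦.card with hC
  refine ⟨C, fun N => ?_⟩
  have hfin : ∀ N, {g : X | cn (T g) ≤ N}.Finite := fin_cond hχ hinj he hX
  set A := (hfin N).toFinset with hA
  have hBf : {g : X | cn (T g) ≤ C * N ∧ P g}.Finite := (hfin (C * N)).subset fun g hg => hg.1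
  set B := hBf.toFinset with hB
  have hmaps : ∀ g ∈ A, g * k g ∈ B := by
    intro g hg
    rw [hA, Set.Finite.mem_toFinset] at hg
    have hg' : cn (T g) ≤ N := hg
    rw [hB, Set.Finite.mem_toFinset]
    refine ⟨?_, hPk g⟩
    have h1 := cn_union (T g) (T (k g)) (T (g * k g)) (hχ.supp g (k g))
    have h2 : cn (T (k g)) ≤ C₁ := Finset.le_sup (f := fun k => cn (T k)) (hk g)
    calc cn (T (g * k g)) ≤ cn (T g) * cn (T (k g)) := h1
      _ ≤ N * C := Nat.mul_le_mul hg' (h2.trans (le_max_left _ _))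
      _ = C * N := Nat.mul_comm _ _
  have hfib : ∀ y ∈ B, (A.filter fun g => g * k g = y).card ≤ 𝒦.card := by
    intro y _
    refine Finset.card_le_card_of_injOn (fun g => k g) (fun g hg => hk g) ?_
    intro g hg g' hg' h
    have h1 : g * k g = y := (mem_filter.1 hg).2
    have h2 : g' * k g' = y := (mem_filter.1 hg').2
    have h3 : k g = k g' := h
    rw [← h2, h3] at h1
    exact mul_right_cancel h1
  have h1 := Finset.card_le_mul_card_image_of_maps_to hmaps 𝒦.card hfib
  rw [Set.ncard_eq_toFinset_card _ (hfin N), Set.ncard_eq_toFinset_card _ hBf]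
  exact h1.trans (Nat.mul_le_mul_right _ (le_max_right _ _))

end Pool.Agent.H92G
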