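import Pool.Agent.H92G.Gd

/-!
# Towers of characters, relative to a fixed character
-/

set_option autoImplicit false
set_option linter.unusedSectionVars false

namespace Pool.Agent.H92G

open Finset NumberField IsDedekindDomain Filter Topology
open Pool.Agent.K4H55.BI Pool.Agent.K4H55.CX
open Pool.Agent.Y683.CG
open Pool.Agent.H92 Pool.Agent.H92P
open scoped ComplexConjugate

variable {K : Type} [Field K] [NumberField K] [hP : IsPrincipalIdealRing (𝓞 K)] {σ : K →+* ℂ}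
  {δ : K} {n : 𝓞 K} {c : Ideal (𝓞 K) → ℂ}

/-- the admissible places -/
def Adg (𝔪 : Ideal (integralClosure ℤ ℂ)) (n : 𝓞 K) (c : Ideal (𝓞 K) → ℂ)
    (T0 : Finset (HeightOneSpectrum (𝓞 K))) (ψ : 𝓞 K → ℂ) (v : HeightOneSpectrum (𝓞 K)) : Prop :=
  Gd n v ∧ v ∉ T0 ∧ ∃ y : integralClosure ℤ ℂ,
    (y : ℂ) = c v.asIdeal - ψ (gen v) - conj (ψ (gen v)) ∧ y ∉ 𝔪

/-- the factors are congruent -/
lemma fac_g {l : ℕ} (hl : l.Prime) (h : IQ K σ δ) {C : ℝ} {w : ℂ} {M : Submodule ℤ ℂ}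
    (hMG : MG (ordK h) n (fun x => c (Ideal.span {x})) C w M) {b N0 : ℕ} (hN0 : 0 < N0)
    {𝔪 : Ideal (integralClosure ℤ ℂ)} (hp : 𝔪.IsPrime) (h2 : (l : integralClosure ℤ ℂ) ∈ 𝔪)
    {T0 : Finset (HeightOneSpectrum (𝓞 K))} {ψ : 𝓞 K → ℂ}
    {v : HeightOneSpectrum (𝓞 K)} (hv : Adg 𝔪 n c T0 ψ v) (hψ : ψ (gen v) ^ N0 = 1)
    {ζ : ℂ} (hζ : ζ ^ l ^ b = 1) :
    Q2 (Lat h n c (l ^ b * N0)) 𝔪 (c v.asIdeal - conj (ζ * ψ (gen v)) -
      conj (conj (ζ * ψ (gen v)))) (c v.asIdeal - conj (ψ (gen v)) - conj (conj (ψ (gen v)))) := by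
  obtain ⟨⟨-, hn⟩, -, y, hy, hym⟩ := hv
  have he : 0 < l ^ b := pow_pos hl.pos b
  have he' : 0 < l ^ b * N0 := Nat.mul_pos he hN0
  have hc := lat_hecke h hMG (e := l ^ b * N0) hn
  have hζ' := conj_root hζ
  set η := ψ (gen v) with hη
  have hη' := conj_root hψ
  have r1 : ∀ z : ℂ, z ^ l ^ b = 1 → z ^ (l ^ b * N0) = 1 := fun z hz => by
    rw [pow_mul, hz, one_pow]
  have r2 : ∀ z : ℂ, z ^ N0 = 1 → z ^ (l ^ b * N0) = 1 := fun z hz => by
    rw [mul_comm, pow_mul, hz, one_pow]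
  set z : integralClosure ℤ ℂ := ⟨ζ, root_int he hζ⟩ with hz
  set z' : integralClosure ℤ ℂ := ⟨conj ζ, root_int he hζ'⟩ with hz'
  set t : integralClosure ℤ ℂ := ⟨η, root_int hN0 hψ⟩ with ht
  set t' : integralClosure ℤ ℂ := ⟨conj η, root_int hN0 hη'⟩ with ht'
  have m1 := lam_powp hl 𝔪 hp h2 b z (Subtype.ext hζ)
  have m2 := lam_powp hl 𝔪 hp h2 b z' (Subtype.ext hζ')
  have a1 : ζ * η ∈ mulR (Lat h n c (l ^ b * N0)) :=
    Subalgebra.mul_mem _ (lat_root h (r1 _ hζ)) (lat_root h (r2 _ hψ))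
  have a2 : conj (ζ * η) ∈ mulR (Lat h n c (l ^ b * N0)) := by
    rw [map_mul]
    exact Subalgebra.mul_mem _ (lat_root h (r1 _ hζ')) (lat_root h (r2 _ hη'))
  have a3 : η ∈ mulR (Lat h n c (l ^ b * N0)) := lat_root h (r2 _ hψ)
  have a4 : conj η ∈ mulR (Lat h n c (l ^ b * N0)) := lat_root h (r2 _ hη')
  rw [Complex.conj_conj, Complex.conj_conj]
  refine ⟨Subalgebra.sub_mem _ (Subalgebra.sub_mem _ hc a2) a1,
    Subalgebra.sub_mem _ (Subalgebra.sub_mem _ hc a4) a3,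
    y + t + t' - z' * t' - z * t, y, ?_, ?_, ?_, hym⟩
  · push_cast
    rw [hy, map_mul]
    show c v.asIdeal - η - conj η + η + conj η - conj ζ * conj η - ζ * η = _
    ring
  · rw [hy]
    ring
  · have e : y + t + t' - z' * t' - z * t - y = -((z' - 1) * t' + (z - 1) * t) := by ring
    rw [e]
    exact 𝔪.neg_mem (𝔪.add_mem (𝔪.mul_mem_right _ m2) (𝔪.mul_mem_right _ m1))

open Classical in
/-- **The towers.** -/
theorem bia_towerg {l : ℕ} (hl : l.Prime) {𝔪 : Ideal (integralClosure ℤ ℂ)} (hmax : 𝔪.IsMaximal)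
    (hlm : ((l : ℕ) : integralClosure ℤ ℂ) ∈ 𝔪) (h : IQ K σ δ) (hf : BF σ δ n c)
    {T0 : Finset (HeightOneSpectrum (𝓞 K))} {ψ : 𝓞 K → ℂ} (hψ : CP T0 ψ)
    (hT0 : ∀ v ∈ T0, Gd n v) (h0 : H92.val h c T0 (br ψ) ≠ 0) (b d : ℕ) :
    RamPp l b d (Adg 𝔪 n c T0 ψ)
      (fun T χ => H92.val h c (T ∪ T0) (br fun x => χ x * ψ x) ≠ 0) := by
  obtain ⟨C, w, κ, κW, hN⟩ := hf.newf h
  have hMG := hN.mg
  set D := ordK h with hD
  obtain ⟨N0, hN0, hψN⟩ := hψ.pow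
  set e : ℕ := l ^ b with he
  have he0 : 0 < e := pow_pos hl.pos b
  set E : ℕ := l ^ b * N0 with hE
  have hE0 : 0 < E := Nat.mul_pos he0 hN0
  have hp𝔪 : 𝔪.IsPrime := hmax.isPrime
  have h2𝔪 : (l : integralClosure ℤ ℂ) ∈ 𝔪 := hlm
  set Λ := Lat h n c E with hΛ
  have hFG : Λ.FG := lat_fg h hMG hE0
  have hrE : ∀ z : ℂ, z ^ e = 1 → z ^ E = 1 := fun z hz => by rw [hE, pow_mul, hz, one_pow]
  have hrN : ∀ z : ℂ, z ^ N0 = 1 → z ^ E = 1 := fun z hz => by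
    rw [hE, mul_comm, pow_mul, hz, one_pow]
  -- the weights are in the lattice
  have hwL : ∀ T' : Finset (HeightOneSpectrum (𝓞 K)), (∀ v ∈ T', Gd n v) →
      ∀ u ∈ sT h (T' ∪ T0), wT h c (T' ∪ T0) u * conj (ψ u) ∈ Λ := by
    intro T' hT' u hu
    have h1 := (mem_filter.1 hu).2
    rw [mul_comm]
    have h2 : ∀ v ∈ T' ∪ T0, Gd n v := fun v hv => by
      rcases mem_union.1 hv with h3 | h3
      · exact hT' v h3
      · exact hT0 v h3
    refine lat_root h (conj_root (hrN _ (hψN u ((hψ.ne_iff u).2 fun v hv =>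
      h1 v (mem_union_right _ hv))))) _ ?_
    exact lat_of h (Submodule.subset_span ⟨u, md ((T' ∪ T0).image gen), (fam_gd h2).md_ne,
        md_coprime D (fam_gd h2) (nn_gd h2), rfl⟩)
  set x0 : ℂ := H92.val h c T0 (br ψ) with hx0
  have hx0L : x0 ∈ Λ := by
    rw [hx0, ← sum_sT]
    refine Submodule.sum_mem _ fun u hu => ?_
    have h1 := hwL ∅ (fun v hv => absurd hv (notMem_empty v)) u (by rw [empty_union]; exact hu)
    rw [empty_union] at h1
    exact h1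
  have hLne : Λ ≠ ⊥ := by
    intro hbot
    rw [hbot, Submodule.mem_bot] at hx0L
    exact h0 hx0L
  obtain ⟨Fil, hF⟩ := filx_exists hl hFG hLne 𝔪 hmax hlm
  -- the place of `x0` in the filtration
  obtain ⟨n0, hn0, hn1⟩ : ∃ n0, x0 ∈ Fil n0 ∧ x0 ∉ Fil (n0 + 1) := by
    have h1 := hF.sep x0 hx0L h0
    have h2 := Nat.find_spec h1
    have h3 : Nat.find h1 ≠ 0 := by
      intro h3
      rw [h3] at h2
      exact h2 ((hF.zero _).2 hx0L)
    obtain ⟨n0, hn0⟩ : ∃ n0, Nat.find h1 = n0 + 1 := ⟨Nat.find h1 - 1, by omega⟩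
    refine ⟨n0, ?_, ?_⟩
    · have h4 := Nat.find_min h1 (m := n0) (by omega)
      rwa [not_not] at h4
    · rwa [hn0] at h2
  have hroot : ∀ ζ : ℂ, ζ ^ e = 1 → ζ ∈ mulR Λ ∧
      ∃ y : integralClosure ℤ ℂ, (y : ℂ) = ζ - 1 ∧ y ∈ 𝔪 := by
    intro ζ hζ
    refine ⟨lat_root h (hrE _ hζ), (⟨ζ, root_int he0 hζ⟩ : integralClosure ℤ ℂ) - 1, rfl, ?_⟩
    exact lam_powp hl 𝔪 hp𝔪 h2𝔪 b _ (Subtype.ext hζ)
  obtain ⟨L, hL⟩ := towerE d e he0 hF n0 hroot
  refine ⟨L, fun X _ T χ hχ hXe hT τ g => ?_⟩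
  have hA : ∀ T' : Finset (HeightOneSpectrum (𝓞 K)), (∀ v ∈ T', Adg 𝔪 n c T0 ψ v) →
      ∀ v ∈ T', Gd n v := fun T' h1 v hv => (h1 v hv).1
  -- the values
  have hval : ∀ v : HeightOneSpectrum (𝓞 K), v ∉ T0 → ψ (gen v) ^ N0 = 1 := by
    intro v hv
    refine hψN _ ((hψ.ne_iff _).2 fun v' hv' hmem => ?_)
    have h7 : v' = v := gen_na (gen_dvd.2 hmem)
    exact hv (h7 ▸ hv')
  have hrt : ∀ g : X, ∀ T' T'' : Finset (HeightOneSpectrum (𝓞 K)), T g ⊆ T' →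
      ∀ v ∈ T'' \ T', (χ g (gen v)) ^ e = 1 := by
    intro g T' T'' h1 v hv
    refine hχ.root g (hXe g) ?_
    rw [(hχ.ch g).ne_iff]
    intro v' hv' hmem
    have h7 : v' = v := gen_na (gen_dvd.2 hmem)
    exact (mem_sdiff.1 hv).2 (h1 (h7 ▸ hv'))
  -- change of the level
  have hlev : ∀ g : X, ∀ T' : Finset (HeightOneSpectrum (𝓞 K)), T g ⊆ T' →
      (∀ v ∈ T', Adg 𝔪 n c T0 ψ v) → ∀ T'' : Finset (HeightOneSpectrum (𝓞 K)), T' ⊆ T'' →
      (∀ v ∈ T'', Adg 𝔪 n c T0 ψ v) →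
      H92.val h c (T'' ∪ T0) (br fun x => χ g x * ψ x) = (∏ v ∈ T'' \ T', (c v.asIdeal -
        conj (χ g (gen v) * ψ (gen v)) - conj (conj (χ g (gen v) * ψ (gen v))))) *
        H92.val h c (T' ∪ T0) (br fun x => χ g x * ψ x) := by
    intro g T' h1 h2 T'' h3 h4
    have h5 := levg h hMG (n := n) (c := c) (T := T' ∪ T0) (Y := br fun x => χ g x * ψ x)
      (fun x y hxy => by
        show conj (χ g x * ψ x) = conj (χ g y * ψ y)
        rw [(hχ.ch g).prd x y fun v hv => hxy v (mem_union_left _ (h1 hv)),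
          hψ.prd x y fun v hv => hxy v (mem_union_right _ hv)])
      (fun x y => by
        show conj (χ g (x * y) * ψ (x * y)) = conj (χ g x * ψ x) * conj (χ g y * ψ y)
        rw [(hχ.ch g).mul, hψ.mul, ← map_mul]
        congr 1
        ring) (T'' \ T')
      (by
        rw [disjoint_union_right]
        refine ⟨sdiff_disjoint, ?_⟩
        rw [Finset.disjoint_left]
        intro v hv
        exact (h4 v (sdiff_subset hv)).2.1)
      (by
        rw [← union_assoc, sdiff_union_of_subset h3]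
        intro v hv
        rcases mem_union.1 hv with h6 | h6
        · exact (h4 v h6).1
        · exact hT0 v h6) (fun v hv => ?_)
    · rw [← union_assoc, sdiff_union_of_subset h3] at h5
      exact h5
    · have h6 := hrt g T' T'' h1 v hv
      have h7 := hval v (h4 v (sdiff_subset hv)).2.1
      refine root_mul_conj (e := E) hE0 (ζ := conj (χ g (gen v) * ψ (gen v))) (conj_root ?_)
      rw [mul_pow, hrE _ h6, hrN _ h7, one_mul]
  have hbr1 : (br fun x => χ 1 x * ψ x) = br ψ := by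
    funext x
    show conj (χ 1 x * ψ x) = conj (ψ x)
    rw [hχ.triv, one_mul]
  have hone : ∀ T' : Finset (HeightOneSpectrum (𝓞 K)), (∀ v ∈ T', Adg 𝔪 n c T0 ψ v) →
      H92.val h c (T' ∪ T0) (br ψ) = (∏ v ∈ T', (c v.asIdeal - conj (ψ (gen v)) -
        conj (conj (ψ (gen v))))) * x0 := by
    intro T' hT'
    have h1 := hlev 1 ∅ (by rw [hχ.T1]) (fun v hv => absurd hv (notMem_empty v)) T'
      (empty_subset _) hT'
    rw [hbr1, sdiff_empty, empty_union] at h1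
    rw [h1]
    congr 1
    refine Finset.prod_congr rfl fun v _ => ?_
    rw [hχ.triv, one_mul]
  have hQ1 : ∀ T' : Finset (HeightOneSpectrum (𝓞 K)), (∀ v ∈ T', Adg 𝔪 n c T0 ψ v) →
      Q2 Λ 𝔪 (∏ v ∈ T', (c v.asIdeal - conj (ψ (gen v)) - conj (conj (ψ (gen v)))))
        (∏ v ∈ T', (c v.asIdeal - conj (ψ (gen v)) - conj (conj (ψ (gen v))))) := by
    intro T' hT'
    refine Q2.prod hp𝔪 _ _ _ fun v hv => ?_
    have h1 := fac_g hl h hMG (b := b) hN0 hp𝔪 h2𝔪 (hT' v hv) (hval v (hT' v hv).2.1)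
      (ζ := 1) (one_pow _)
    rwa [one_mul] at h1
  have hLev : Lev Λ (Fil (n0 + 1)) e (fun T' => sT h (T' ∪ T0)) (fun _ u g => conj (χ g u))
      (fun T' u => wT h c (T' ∪ T0) u * conj (ψ u)) T
      (fun T' => ∀ v ∈ T', Adg 𝔪 n c T0 ψ v) := by
    refine ⟨hXe, hχ.T1, hχ.supp, fun T' u _ => ?_, fun T' u hu g g' hg hg' => ?_,
      fun T' T'' h1 h2 v hv => ?_, fun v hv => absurd hv (notMem_empty v), fun T' hT' u hu => ?_,
      fun T' T'' h1 h2 h3 g hg hgood => ?_⟩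
    · rw [hχ.triv, map_one]
    · have h1 := (mem_filter.1 hu).2
      rw [hχ.mul g g' u (((hχ.ch g).ne_iff u).2 fun v hv => h1 v (mem_union_left _ (hg hv)))
        (((hχ.ch g').ne_iff u).2 fun v hv => h1 v (mem_union_left _ (hg' hv))), map_mul]
    · rcases mem_union.1 hv with h3 | h3
      · exact h1 v h3
      · exact h2 v h3
    · exact hwL T' (hA T' hT') u hu
    · have e0 : ∀ T' : Finset (HeightOneSpectrum (𝓞 K)),
          ∑ u ∈ sT h (T' ∪ T0), wT h c (T' ∪ T0) u * conj (ψ u) * conj (χ g u) =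
            H92.val h c (T' ∪ T0) (br fun x => χ g x * ψ x) := by
        intro T'
        rw [← sum_sT]
        refine Finset.sum_congr rfl fun u _ => ?_
        show _ = wT h c (T' ∪ T0) u * conj (χ g u * ψ u)
        rw [map_mul]
        ring
      have e0' : ∀ T' : Finset (HeightOneSpectrum (𝓞 K)),
          ∑ u ∈ sT h (T' ∪ T0), wT h c (T' ∪ T0) u * conj (ψ u) =
            H92.val h c (T' ∪ T0) (br ψ) := by
        intro T'
        rw [← sum_sT]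
        rfl
      rw [e0, e0'] at hgood ⊢
      have e1 := hlev g T' hg h1 T'' h3 h2
      have e2 : H92.val h c (T'' ∪ T0) (br ψ) = (∏ v ∈ T'' \ T', (c v.asIdeal -
          conj (ψ (gen v)) - conj (conj (ψ (gen v))))) * H92.val h c (T' ∪ T0) (br ψ) := by
        rw [hone T'' h2, hone T' h1, ← mul_assoc, prod_sdiff h3]
      have hQ : Q2 Λ 𝔪 (∏ v ∈ T'' \ T', (c v.asIdeal - conj (χ g (gen v) * ψ (gen v)) -
          conj (conj (χ g (gen v) * ψ (gen v))))) (∏ v ∈ T'' \ T', (c v.asIdeal -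
          conj (ψ (gen v)) - conj (conj (ψ (gen v))))) := by
        refine Q2.prod hp𝔪 _ _ _ fun v hv => ?_
        exact fac_g hl h hMG (b := b) hN0 hp𝔪 h2𝔪 (h2 v (sdiff_subset hv))
          (hval v (h2 v (sdiff_subset hv)).2.1) (hrt g T' T'' hg v hv)
      rw [e1, e2]
      set a := ∏ v ∈ T'' \ T', (c v.asIdeal - conj (χ g (gen v) * ψ (gen v)) -
          conj (conj (χ g (gen v) * ψ (gen v)))) with ha
      set a' := ∏ v ∈ T'' \ T', (c v.asIdeal - conj (ψ (gen v)) - conj (conj (ψ (gen v)))) with ha'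
      set y := H92.val h c (T' ∪ T0) (br fun x => χ g x * ψ x) with hy
      set z := H92.val h c (T' ∪ T0) (br ψ) with hz
      have hz0 : z ∈ Fil n0 := by
        rw [hz, hone T' h1]
        exact hF.mul n0 _ (hQ1 T' h1).1 _ hn0
      have hy0 : y ∈ Fil n0 := by
        have h1 := Submodule.add_mem _ (hF.anti n0 _ hgood) hz0
        rwa [sub_add_cancel] at h1
      have h2 : a * y - a' * z = (a - a') * y + a' * (y - z) := by ring
      rw [h2]
      obtain ⟨q1, q2, x, x', hx, hx', hxx, -⟩ := hQ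
      refine Submodule.add_mem _ (hF.step n0 y hy0 _ (Subalgebra.sub_mem _ q1 q2)
        ⟨x - x', ?_, hxx⟩) (hF.mul _ _ q2 _ hgood)
      push_cast
      rw [hx, hx']
  obtain ⟨B, hB1, hB2⟩ := hL X (𝓞 K) (HeightOneSpectrum (𝓞 K)) (fun T' => sT h (T' ∪ T0))
    (fun _ u g => conj (χ g u)) (fun T' u => wT h c (T' ∪ T0) u * conj (ψ u)) T
    (fun T' => ∀ v ∈ T', Adg 𝔪 n c T0 ψ v) hLev
    (fun T' T'' h1 h2 v hv => h2 v (h1 hv)) τ g (fun i j => hT _)
  refine ⟨B, hB1, fun x hx hx0' => ?_⟩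
  obtain ⟨T', hT', hST, hgood⟩ := hB2 x hx
  have e0 : ∑ u ∈ sT h (T' ∪ T0), wT h c (T' ∪ T0) u * conj (ψ u) * conj (χ x u) =
      H92.val h c (T' ∪ T0) (br fun y => χ x y * ψ y) := by
    rw [← sum_sT]
    refine Finset.sum_congr rfl fun u _ => ?_
    show _ = wT h c (T' ∪ T0) u * conj (χ x u * ψ u)
    rw [map_mul]
    ring
  have e0' : ∑ u ∈ sT h (T' ∪ T0), wT h c (T' ∪ T0) u * conj (ψ u) =
      H92.val h c (T' ∪ T0) (br ψ) := by
    rw [← sum_sT]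
    rfl
  rw [e0, e0', hlev x (T x) subset_rfl (hT x) T' hST hT', hx0', mul_zero, zero_sub] at hgood
  have h3 := Submodule.neg_mem _ hgood
  rw [neg_neg, hone T' hT'] at h3
  obtain ⟨q1, -, y, y', -, hy', -, hym⟩ := hQ1 T' hT'
  exact hn1 (hF.unit (n0 + 1) _ q1 ⟨y', hy', hym⟩ x0 hx0L h3)

end Pool.Agent.H92G
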